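import Mathlib
import Pool.Agent.TH787.WreathTower

/-!
# Ultrapowers of the wreath tower over arbitrary index sets

For every infinite set `J` the ultrapower `G J` of the group `W` (`Pool.Agent.TH787.WreathTower`)
over the index set of the finite subsets of `J`, with respect to a fine ultrafilter, is
topologizable, and every subset of cardinality at most `|J|` is closed in every Hausdorff group
topology on `G J`.  The arguments generalize those of `Pool.Agent.TH787.WreathUltra` (the index set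
`ℕ`).
-/

set_option autoImplicit false

namespace Pool.Agent.Y302.WU

open Filter Topology Pool.Agent.TH787.WreathTower

universe u

variable {I : Type u}

/-- The ultrapower of `W` by an ultrafilter. -/
abbrev GU (𝒰 : Ultrafilter I) : Type u := (𝒰 : Filter I).Germ W

/-- The class of a family in the ultrapower. -/
noncomputable def clU (𝒰 : Ultrafilter I) (y : I → W) : GU 𝒰 := (y : (𝒰 : Filter I).Germ W)

variable {𝒰 : Ultrafilter I}

lemma clU_surj (g : GU 𝒰) : ∃ y : I → W, clU 𝒰 y = g := Quotient.exists_rep g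

lemma clU_eq {y z : I → W} : clU 𝒰 y = clU 𝒰 z ↔ ∀ᶠ n in (𝒰 : Filter I), y n = z n :=
  Germ.coe_eq

lemma clU_one : clU 𝒰 (fun _ => 1) = 1 := rfl

lemma clU_mul (y z : I → W) : clU 𝒰 (fun n => y n * z n) = clU 𝒰 y * clU 𝒰 z := rfl

lemma clU_inv (y : I → W) : clU 𝒰 (fun n => (y n)⁻¹) = (clU 𝒰 y)⁻¹ := rfl

lemma clU_cm (y z : I → W) : clU 𝒰 (fun n => cm (y n) (z n)) = cm (clU 𝒰 y) (clU 𝒰 z) := rfl

lemma clU_ne_one {y : I → W} (h : ∀ n, y n ≠ 1) : clU 𝒰 y ≠ 1 := by
  rw [← clU_one, Ne, clU_eq]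
  intro h'
  obtain ⟨n, hn⟩ := h'.exists
  exact h n hn

/-- The basic subgroups, as sets. -/
def NU (𝒰 : Ultrafilter I) (e : I → ℕ) : Set (GU 𝒰) :=
  {g | ∃ y : I → W, clU 𝒰 y = g ∧ ∀ᶠ n in (𝒰 : Filter I), (y n).1 (e n) = 1}

lemma NU_mono {e e' : I → ℕ} (h : ∀ n, e n ≤ e' n) : NU 𝒰 e' ⊆ NU 𝒰 e := by
  rintro g ⟨y, hy, hn⟩
  refine ⟨y, hy, ?_⟩
  filter_upwards [hn] with n hn
  exact W.eq_one_of_le (y n).2 (h n) hn

lemma NU_one (e : I → ℕ) : (1 : GU 𝒰) ∈ NU 𝒰 e :=
  ⟨fun _ => 1, clU_one, Eventually.of_forall fun _ => rfl⟩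

lemma NU_mul (e : I → ℕ) {g h : GU 𝒰} (hg : g ∈ NU 𝒰 e) (hh : h ∈ NU 𝒰 e) :
    g * h ∈ NU 𝒰 e := by
  obtain ⟨y, hy, hn⟩ := hg
  obtain ⟨z, hz, hm⟩ := hh
  refine ⟨fun n => y n * z n, by rw [clU_mul, hy, hz], ?_⟩
  filter_upwards [hn, hm] with n hn hm
  change (y n).1 (e n) * (z n).1 (e n) = 1
  rw [hn, hm, one_mul]

lemma NU_inv (e : I → ℕ) {g : GU 𝒰} (hg : g ∈ NU 𝒰 e) : g⁻¹ ∈ NU 𝒰 e := by
  obtain ⟨y, hy, hn⟩ := hg
  refine ⟨fun n => (y n)⁻¹, by rw [clU_inv, hy], ?_⟩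
  filter_upwards [hn] with n hn
  change ((y n).1 (e n))⁻¹ = 1
  rw [hn, inv_one]

lemma NU_conj (e : I → ℕ) (k : GU 𝒰) {g : GU 𝒰} (hg : g ∈ NU 𝒰 e) : k * g * k⁻¹ ∈ NU 𝒰 e := by
  obtain ⟨y, hy, hn⟩ := hg
  obtain ⟨z, hz⟩ := clU_surj k
  refine ⟨fun n => z n * y n * (z n)⁻¹, ?_, ?_⟩
  · rw [clU_mul (fun n => z n * y n) (fun n => (z n)⁻¹), clU_mul, clU_inv, hy, hz]
  filter_upwards [hn] with n hn
  change (z n).1 (e n) * (y n).1 (e n) * ((z n).1 (e n))⁻¹ = 1
  rw [hn, mul_one, mul_inv_cancel]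

/-- The group filter basis. -/
@[reducible] def basisU (𝒰 : Ultrafilter I) : GroupFilterBasis (GU 𝒰) where
  sets := Set.range (NU 𝒰)
  nonempty := ⟨NU 𝒰 0, 0, rfl⟩
  inter_sets := by
    rintro _ _ ⟨e, rfl⟩ ⟨e', rfl⟩
    refine ⟨NU 𝒰 (fun n => max (e n) (e' n)), ⟨_, rfl⟩, Set.subset_inter ?_ ?_⟩
    · exact NU_mono fun n => le_max_left _ _
    · exact NU_mono fun n => le_max_right _ _
  one' := by
    rintro _ ⟨e, rfl⟩
    exact NU_one e
  mul' := by
    rintro _ ⟨e, rfl⟩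
    refine ⟨NU 𝒰 e, ⟨e, rfl⟩, ?_⟩
    rintro _ ⟨g, hg, h, hh, rfl⟩
    exact NU_mul e hg hh
  inv' := by
    rintro _ ⟨e, rfl⟩
    exact ⟨NU 𝒰 e, ⟨e, rfl⟩, fun g hg => NU_inv e hg⟩
  conj' := by
    rintro k _ ⟨e, rfl⟩
    exact ⟨NU 𝒰 e, ⟨e, rfl⟩, fun g hg => NU_conj e k hg⟩

lemma exists_not_mem_NU {g : GU 𝒰} (hg : g ≠ 1) : ∃ e, g ∉ NU 𝒰 e := by
  classical
  obtain ⟨y, rfl⟩ := clU_surj g
  rw [← clU_one, Ne, clU_eq] at hg
  have h1 : ∀ᶠ n in (𝒰 : Filter I), ¬ (y n = 1) :=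
    (Ultrafilter.eventually_not (f := 𝒰)).mpr hg
  have h2 : ∀ n, ∃ k, y n ≠ 1 → (y n).1 k ≠ 1 := by
    intro n
    by_cases hn : y n = 1
    · exact ⟨0, fun h => absurd hn h⟩
    · by_contra hcon
      push Not at hcon
      apply hn
      apply Subtype.ext
      funext k
      exact (hcon k).2
  choose e he using h2
  refine ⟨e, ?_⟩
  rintro ⟨z, hz, hzn⟩
  rw [clU_eq] at hz
  obtain ⟨n, hn1, hn2, hn3⟩ := (h1.and (hz.and hzn)).exists
  exact he n hn1 (hn2 ▸ hn3)

lemma exists_mem_NU (e : I → ℕ) : ∃ g ∈ NU 𝒰 e, g ≠ 1 := by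
  have hd : (Equiv.swap 0 1 : D) ≠ 1 := by decide
  refine ⟨clU 𝒰 fun n => ⟨zz (Equiv.swap 0 1) (e n), zz_mem _ _⟩, ⟨_, rfl, ?_⟩, ?_⟩
  · exact Eventually.of_forall fun n => zz_le _ _ _ le_rfl
  · apply clU_ne_one
    intro n h
    exact zz_ne_one hd (e n) (congrArg Subtype.val h)

/-- Every ultrapower of `W` carries a nondiscrete Hausdorff group topology. -/
theorem topologizableU (𝒰 : Ultrafilter I) : ∃ t : TopologicalSpace (GU 𝒰),
    @IsTopologicalGroup (GU 𝒰) t _ ∧ @T2Space (GU 𝒰) t ∧ ¬ @DiscreteTopology (GU 𝒰) t := by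
  refine ⟨(basisU 𝒰).topology, (basisU 𝒰).isTopologicalGroup, ?_, ?_⟩
  · let _ := (basisU 𝒰).topology
    have := (basisU 𝒰).isTopologicalGroup
    apply IsTopologicalGroup.t2Space_of_one_sep
    intro x hx
    obtain ⟨e, he⟩ := exists_not_mem_NU hx
    exact ⟨NU 𝒰 e, (basisU 𝒰).mem_nhds_one ⟨e, rfl⟩, he⟩
  · let _ := (basisU 𝒰).topology
    intro hdisc
    have h1 : ({1} : Set (GU 𝒰)) ∈ 𝓝 (1 : GU 𝒰) := by
      rw [nhds_discrete]
      exact Set.mem_singleton _
    rw [(basisU 𝒰).nhds_one_eq] at h1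
    obtain ⟨V, ⟨e, rfl⟩, hV⟩ := h1
    obtain ⟨g, hg, hne⟩ := exists_mem_NU (𝒰 := 𝒰) e
    exact hne (hV hg)

/-! ### Saturation -/

variable (J : Type u)

/-- A fine ultrafilter on the set of the finite subsets of `J`. -/
noncomputable def fine : Ultrafilter (Finset J) := by
  classical
  exact Ultrafilter.of (atTop : Filter (Finset J))

lemma eventually_mem (j : J) : ∀ᶠ F in (fine J : Filter (Finset J)), j ∈ F := by
  classical
  have h1 : ∀ᶠ F in (atTop : Filter (Finset J)), j ∈ F := by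
    filter_upwards [eventually_ge_atTop ({j} : Finset J)] with F hF
    exact hF (Finset.mem_singleton_self j)
  exact (Ultrafilter.of_le (atTop : Filter (Finset J))) h1

/-- The group of the theorem. -/
abbrev G : Type u := GU (fine J)

variable {J}

/-- Saturation for the relevant type. -/
lemma sat (s : J → G J) : ∃ a b c : G J, c ≠ 1 ∧ ∀ j, s j ≠ 1 → cm (cm (s j) a) b = c := by
  classical
  choose y hy using fun j => clU_surj (s j)
  have h : ∀ F : Finset J, ∃ a b c : W, c ≠ 1 ∧ ∀ x ∈ F.image (fun j => y j F),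
      x ≠ 1 → cm (cm x a) b = c := fun F => finite_sat _
  choose a b c hc hab using h
  refine ⟨clU _ a, clU _ b, clU _ c, clU_ne_one hc, fun j hj => ?_⟩
  rw [← hy j] at hj ⊢
  rw [← clU_one, Ne, clU_eq] at hj
  rw [← clU_cm, ← clU_cm, clU_eq]
  have h1 : ∀ᶠ n in (fine J : Filter (Finset J)), ¬ (y j n = 1) :=
    (Ultrafilter.eventually_not (f := fine J)).mpr hj
  filter_upwards [h1, eventually_mem J j] with n hn1 hn2
  apply hab n _ _ hn1
  exact Finset.mem_image.mpr ⟨j, hn2, rfl⟩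

/-- In every Hausdorff group topology on `G J` every subset of cardinality at most `|J|` is
closed. -/
theorem isClosed_of_mk_le [TopologicalSpace (G J)] [IsTopologicalGroup (G J)] [T2Space (G J)]
    (A : Set (G J)) (hA : Cardinal.mk A ≤ Cardinal.mk J) : IsClosed A := by
  classical
  rcases A.eq_empty_or_nonempty with rfl | hne
  · exact isClosed_empty
  have hne' : Nonempty A := hne.to_subtype
  obtain ⟨f⟩ := hA
  have hsurj := Function.invFun_surjective f.injective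
  set s : J → A := Function.invFun f with hs
  rw [← isOpen_compl_iff, isOpen_iff_mem_nhds]
  intro x hx
  obtain ⟨a, b, c, hc, hsat⟩ := sat fun j => (s j : G J) * x⁻¹
  have hcont : Continuous (fun g : G J => cm (cm (g * x⁻¹) a) b) := by
    unfold cm
    fun_prop
  have h3 : cm (cm (x * x⁻¹) a) b = 1 := by simp [cm]
  have h4 : (fun g : G J => cm (cm (g * x⁻¹) a) b) ⁻¹' ({c}ᶜ : Set (G J)) ∈ 𝓝 x := by
    apply hcont.continuousAt.preimage_mem_nhds
    apply isOpen_compl_singleton.mem_nhds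
    rw [h3]
    simpa using hc.symm
  filter_upwards [h4] with g hg hgA
  obtain ⟨j, hj⟩ := hsurj ⟨g, hgA⟩
  apply hg
  have h5 := hsat j
  rw [hj] at h5
  apply h5
  intro h6
  exact hx (mul_inv_eq_one.mp h6 ▸ hgA)

/-- Every compact set is finite. -/
theorem finite_of_isCompact [Infinite J] [TopologicalSpace (G J)] [IsTopologicalGroup (G J)]
    [T2Space (G J)] (K : Set (G J)) (hK : IsCompact K) : K.Finite := by
  by_contra hinf
  have hinf' : K.Infinite := hinf
  have : Infinite K := hinf'.to_subtype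
  let f : ℕ ↪ K := Infinite.natEmbedding K
  let A : Set (G J) := Set.range fun n => (f n : G J)
  have hAinj : Function.Injective fun n => (f n : G J) := fun a b h => f.injective (Subtype.ext h)
  have hcl : ∀ B : Set (G J), B ⊆ A → IsClosed B := by
    intro B hB
    apply isClosed_of_mk_le
    have h1 : Cardinal.mk B ≤ Cardinal.aleph0 :=
      Cardinal.mk_le_aleph0_iff.2 ((Set.countable_range _).mono hB).to_subtype
    exact h1.trans (Cardinal.aleph0_le_mk J)
  have hAK : A ⊆ K := by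
    rintro _ ⟨n, rfl⟩
    exact (f n).2
  have hAc : IsCompact A := hK.of_isClosed_subset (hcl A subset_rfl) hAK
  have hd : DiscreteTopology A := by
    rw [discreteTopology_iff_forall_isClosed]
    intro B
    have h2 := hcl (Subtype.val '' B) (by rintro _ ⟨x, _, rfl⟩; exact x.2)
    have h3 := h2.preimage (continuous_subtype_val (p := fun x => x ∈ A))
    rwa [Set.preimage_image_eq _ Subtype.val_injective] at h3
  have hfin : A.Finite := hAc.finite ⟨hd⟩
  exact Set.infinite_range_of_injective hAinj hfin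

/-- If every closure is determined by the subsets of cardinality at most `|J|`, the topology is
discrete. -/
theorem discrete_of_tight [TopologicalSpace (G J)] [IsTopologicalGroup (G J)] [T2Space (G J)]
    (h : ∀ (A : Set (G J)) (x : G J), x ∈ closure A →
      ∃ B ⊆ A, Cardinal.mk B ≤ Cardinal.mk J ∧ x ∈ closure B) : DiscreteTopology (G J) := by
  rw [discreteTopology_iff_forall_isClosed]
  intro A
  rw [← closure_subset_iff_isClosed]
  intro x hx
  obtain ⟨B, hBA, hB, hxB⟩ := h A x hx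
  rw [(isClosed_of_mk_le B hB).closure_eq] at hxB
  exact hBA hxB

theorem lt_mk_G (J : Type u) : Cardinal.mk J < Cardinal.mk (G J) := by
  by_contra hle
  push Not at hle
  obtain ⟨t, h1, h2, h3⟩ := topologizableU (fine J)
  apply h3
  rw [discreteTopology_iff_forall_isClosed]
  intro A
  exact isClosed_of_mk_le A ((Cardinal.mk_subtype_le _).trans hle)

theorem mk_G_le (J : Type u) [Infinite J] (hW : Countable W) :
    Cardinal.mk (G J) ≤ 2 ^ Cardinal.mk J := by
  have h1 : Cardinal.mk (G J) ≤ Cardinal.mk (Finset J → W) :=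
    Cardinal.mk_le_of_surjective (f := clU (fine J)) clU_surj
  refine h1.trans ?_
  have h2 : Cardinal.mk W ≤ Cardinal.aleph0 := Cardinal.mk_le_aleph0
  rw [Cardinal.mk_arrow, Cardinal.mk_finset_of_infinite]
  calc Cardinal.lift.{u, 0} (Cardinal.mk W) ^ Cardinal.lift.{0, u} (Cardinal.mk J)
      ≤ Cardinal.aleph0 ^ Cardinal.mk J := by
        rw [Cardinal.lift_uzero]
        exact Cardinal.power_le_power_right (Cardinal.lift_le_aleph0.2 h2)
    _ ≤ 2 ^ Cardinal.mk J := by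
        rw [Cardinal.power_eq_two_power (Cardinal.aleph0_le_mk J)
          ((Cardinal.natCast_lt_aleph0 (n := 2)).le) (Cardinal.aleph0_le_mk J)]

end Pool.Agent.Y302.WU
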